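import Mathlib
import Pool.Agent.Helper635.Colour

set_option autoImplicit false

namespace Pool.Agent.Results.MP_7c0edd_co.LocalLemma

open Pool.Agent.Helper635.Colour

/-- The subcube of `{0,1}^n` described by a word: coordinates with value `some b` are fixed to `b`,
coordinates with value `none` vary freely. -/
def cube {n : ℕ} (s : Fin n → Option Bool) : Set (Fin n → Bool) :=
  {x | ∀ (i : Fin n) (b : Bool), s i = some b → x i = b}

/-- Dimension of the subcube: the number of free coordinates. -/
def dim {n : ℕ} (s : Fin n → Option Bool) : ℕ :=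
  (Finset.univ.filter (fun i => s i = none)).card

/-- `S` is a `(d,l)`-covering set of `Q_n`: every copy of `Q_d` contains a member of `S`. -/
def Covering (l n d : ℕ) (S : Finset {s : Fin n → Option Bool // dim s = l}) : Prop :=
  ∀ C : Fin n → Option Bool, dim C = d → ∃ D ∈ S, cube D.1 ⊆ cube C

/-- `f^(l)(n,d)`: the smallest size of a `(d,l)`-covering set. -/
noncomputable def f (l n d : ℕ) : ℕ :=
  sInf {N : ℕ | ∃ S : Finset {s : Fin n → Option Bool // dim s = l}, Covering l n d S ∧ S.card = N}

/-- `c^(l)(n,d)`: the density `f^(l)(n,d) / N_l(n)` with `N_l(n) = 2^(n-l) C(n,l)`. -/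
noncomputable def c (l n d : ℕ) : ℝ :=
  (f l n d : ℝ) / (2 ^ (n - l) * (n.choose l : ℝ))

/-- the number of `l`-subcubes of `Q_n` is `2^(n-l) C(n,l)` -/
lemma card_sub (n l : ℕ) :
    Fintype.card {s : Fin n → Option Bool // dim s = l} = 2 ^ (n - l) * n.choose l := by
  classical
  rw [Fintype.card_subtype]
  have h1 : (Finset.univ.filter (fun s : Fin n → Option Bool => dim s = l)).card =
      ∑ P ∈ (Finset.univ : Finset (Fin n)).powersetCard l,
        ((Finset.univ.filter (fun s : Fin n → Option Bool => dim s = l)).filter
          (fun s => Finset.univ.filter (fun i => s i = none) = P)).card := by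
    apply Finset.card_eq_sum_card_fiberwise
    intro s hs
    rw [Finset.mem_coe, Finset.mem_filter] at hs
    rw [Finset.mem_coe, Finset.mem_powersetCard]
    exact ⟨Finset.subset_univ _, hs.2⟩
  rw [h1]
  have h2 : ∀ P ∈ (Finset.univ : Finset (Fin n)).powersetCard l,
      ((Finset.univ.filter (fun s : Fin n → Option Bool => dim s = l)).filter
          (fun s => Finset.univ.filter (fun i => s i = none) = P)).card = 2 ^ (n - l) := by
    intro P hP
    rw [Finset.mem_powersetCard] at hP
    have h3 : ((Finset.univ.filter (fun s : Fin n → Option Bool => dim s = l)).filter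
          (fun s => Finset.univ.filter (fun i => s i = none) = P)) =
        Fintype.piFinset (fun i => if i ∈ P then ({none} : Finset (Option Bool))
          else {some true, some false}) := by
      ext s
      simp only [Finset.mem_filter, Finset.mem_univ, true_and, Fintype.mem_piFinset]
      constructor
      · rintro ⟨-, h⟩ i
        by_cases hi : i ∈ P
        · rw [if_pos hi, Finset.mem_singleton]
          rw [← h] at hi
          simpa using hi
        · rw [if_neg hi]
          rw [← h] at hi
          simp only [Finset.mem_filter, Finset.mem_univ, true_and] at hi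
          rcases hs : s i with _ | b
          · exact absurd hs hi
          · cases b <;> simp
      · intro h
        have h4 : Finset.univ.filter (fun i => s i = none) = P := by
          ext i
          simp only [Finset.mem_filter, Finset.mem_univ, true_and]
          have := h i
          by_cases hi : i ∈ P
          · rw [if_pos hi, Finset.mem_singleton] at this
            simp [this, hi]
          · rw [if_neg hi] at this
            simp only [Finset.mem_insert, Finset.mem_singleton] at this
            rcases this with h | h <;> simp [h, hi]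
        exact ⟨by rw [dim, h4]; exact hP.2, h4⟩
    rw [h3, Fintype.card_piFinset]
    have h5 : ∀ i, (if i ∈ P then ({none} : Finset (Option Bool))
          else {some true, some false}).card = if i ∈ P then 1 else 2 := by
      intro i
      split_ifs <;> simp
    simp only [h5]
    rw [Finset.prod_ite]
    simp only [Finset.prod_const_one, one_mul, Finset.prod_const]
    congr 1
    rw [Finset.filter_not, Finset.card_sdiff_of_subset (Finset.filter_subset _ _)]
    simp [hP.2]
  rw [Finset.sum_congr rfl h2, Finset.sum_const, Finset.card_powersetCard]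
  simp [mul_comm]

/-- For all `l < d < n`:
`c^(l)(n,d) * ⌊ C(d+1,l+1) / (2 + 3 log C(d+1,l+1) + (d-l) log (4(d-l+1))) ⌋ ≤ 1`. -/
theorem result (l d n : ℕ) (hld : l < d) (hdn : d < n) :
    c l n d * ⌊((d + 1).choose (l + 1) : ℝ) / (2 + 3 * Real.log ((d + 1).choose (l + 1)) +
      ((d : ℝ) - l) * Real.log (4 * ((d : ℝ) - l + 1)))⌋₊ ≤ 1 := by
  classical
  obtain ⟨e, rfl⟩ : ∃ e, d = l + e := ⟨d - l, by omega⟩
  have hsymm : (l + e + 1).choose (l + 1) = (l + e + 1).choose e := by
    rw [← Nat.choose_symm (show e ≤ l + e + 1 by omega)]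
    congr 1
    omega
  have hcast : ((l + e : ℕ) : ℝ) - l = e := by push_cast; ring
  rw [hsymm, hcast]
  set M : ℕ := (l + e + 1).choose e with hM
  have hMpos : 1 ≤ M := Nat.choose_pos (by omega)
  have hM1 : (1 : ℝ) ≤ M := by exact_mod_cast hMpos
  have hlogM : 0 ≤ Real.log M := Real.log_nonneg hM1
  have he0 : (0 : ℝ) ≤ e := Nat.cast_nonneg e
  have hloge : 0 ≤ Real.log (4 * ((e : ℝ) + 1)) := Real.log_nonneg (by linarith)
  have hX : 0 ≤ (e : ℝ) * Real.log (4 * ((e : ℝ) + 1)) := mul_nonneg he0 hloge
  set W : ℝ := 2 + 3 * Real.log M + (e : ℝ) * Real.log (4 * ((e : ℝ) + 1)) with hW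
  have hWpos : 0 < W := by rw [hW]; linarith
  set k : ℕ := ⌊(M : ℝ) / W⌋₊ with hk
  rcases Nat.eq_zero_or_pos k with h0 | hkpos
  · rw [h0]; simp
  have hkW : (k : ℝ) * W ≤ M := by
    have h1 : (k : ℝ) ≤ (M : ℝ) / W := Nat.floor_le (by positivity)
    rwa [le_div_iff₀ hWpos] at h1
  obtain ⟨χ, hχ⟩ := word_colouring l e k n hkpos hkW
  -- the colour classes
  set F : Fin k → Finset {s : Fin n → Option Bool // dim s = l} :=
    fun j => Finset.univ.filter (fun D => χ D.1 = j) with hF
  have hcov : ∀ j, Covering l n (l + e) (F j) := by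
    intro j C hC
    obtain ⟨D, hD1, hD2, hD3⟩ := hχ C hC j
    refine ⟨⟨D, hD1⟩, ?_, ?_⟩
    · simp [hF, hD3]
    · intro x hx i b hib
      exact hx i b (hD2 i b hib)
  have hfle : ∀ j, f l n (l + e) ≤ (F j).card := fun j => Nat.sInf_le ⟨F j, hcov j, rfl⟩
  have hsum : ∑ j : Fin k, (F j).card = 2 ^ (n - l) * n.choose l := by
    rw [← card_sub n l, ← Finset.card_univ]
    symm
    apply Finset.card_eq_sum_card_fiberwise
    intro x _
    exact Finset.mem_coe.2 (Finset.mem_univ _)
  have hmain : f l n (l + e) * k ≤ 2 ^ (n - l) * n.choose l := by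
    rw [← hsum]
    calc f l n (l + e) * k = ∑ _j : Fin k, f l n (l + e) := by simp [mul_comm]
      _ ≤ _ := Finset.sum_le_sum (fun j _ => hfle j)
  have hN : 0 < (2 : ℝ) ^ (n - l) * (n.choose l : ℝ) := by
    have : 0 < n.choose l := Nat.choose_pos (by omega)
    positivity
  rw [c, div_mul_eq_mul_div, div_le_one hN]
  exact_mod_cast hmain

end Pool.Agent.Results.MP_7c0edd_co.LocalLemma
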